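import Mathlib
import Pool.Agent.Helper56.TOF.Goals
import Pool.Agent.Helper57.RZ.T1
import Pool.Agent.Helper17.CIR.JCD
import Pool.Agent.Helper72.CIR.UNI
import Pool.Agent.Helper93.CIR.XF

/-! # Project TOF, packet GC1: `C^1` closeness of `x ↦ A (u x) x` -/

set_option autoImplicit false

open Set Filter Topology MeasureTheory

open scoped ContDiff

namespace Pool.Agent.Helper91.TOF

open Pool.Agent.Helper56.RZ Pool.Agent.Helper30.CIR Pool.Agent.Helper56.TOF

/-- the orthogonal projection onto the range of `B` -/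
noncomputable def prj {N K : ℕ} (B : E N →L[ℝ] E K) : End K :=
  B ∘L (Ring.inverse ((ContinuousLinearMap.adjoint B ∘L B : End N)) : End N) ∘L
    ContinuousLinearMap.adjoint B

lemma unit_of_inj {N K : ℕ} (B : E N →L[ℝ] E K) (hB : Function.Injective B) :
    IsUnit (ContinuousLinearMap.adjoint B ∘L B : End N) := by
  have h1 : Function.Injective (ContinuousLinearMap.adjoint B ∘L B : End N) := by
    rw [injective_iff_map_eq_zero]
    intro v hv
    rw [ContinuousLinearMap.comp_apply] at hv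
    have h2 : inner ℝ (B v) (B v) = 0 := by
      rw [← ContinuousLinearMap.adjoint_inner_left, hv, inner_zero_left]
    exact (injective_iff_map_eq_zero B).1 hB v (inner_self_eq_zero.1 h2)
  let e : E N ≃L[ℝ] E N :=
    (LinearEquiv.ofInjectiveEndo ((ContinuousLinearMap.adjoint B ∘L B : End N) : E N →ₗ[ℝ] E N)
      h1).toContinuousLinearEquiv
  have h3 : ((e : E N →L[ℝ] E N)) = (ContinuousLinearMap.adjoint B ∘L B : End N) := by
    ext1 v
    rfl
  rw [← h3]
  exact (ContinuousLinearEquiv.toUnit e).isUnit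

lemma prj_eq {N K : ℕ} (B : E N →L[ℝ] E K) (hB : Function.Injective B) (T : Submodule ℝ (E K))
    (h1 : ∀ v, B v ∈ T) (h2 : ∀ w ∈ T, ∃ v, B v = w) : T.starProjection = prj B := by
  ext1 v
  have hu := unit_of_inj B hB
  refine Submodule.eq_starProjection_of_mem_of_inner_eq_zero ?_ ?_
  · exact h1 _
  · intro w hw
    obtain ⟨y, rfl⟩ := h2 w hw
    rw [← ContinuousLinearMap.adjoint_inner_left]
    have h3 : (ContinuousLinearMap.adjoint B) (prj B v) = (ContinuousLinearMap.adjoint B) v := by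
      have h4 : ((ContinuousLinearMap.adjoint B ∘L B : End N) *
          Ring.inverse ((ContinuousLinearMap.adjoint B ∘L B : End N))) = 1 :=
        Ring.mul_inverse_cancel _ hu
      have h5 := congrArg (fun F : End N => F ((ContinuousLinearMap.adjoint B) v)) h4
      simpa [prj] using h5
    rw [map_sub, h3, sub_self, inner_zero_left]

lemma prj_cont {N K : ℕ} {X : Type} [TopologicalSpace X] (B : X → (E N →L[ℝ] E K)) (S : Set X)
    (x : X) (hB : ContinuousWithinAt B S x) (hi : Function.Injective (B x)) :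
    ContinuousWithinAt (fun y => prj (B y)) S x := by
  have ha : ContinuousWithinAt (fun y => ContinuousLinearMap.adjoint (B y)) S x :=
    (ContinuousLinearMap.adjoint (𝕜 := ℝ) (E := E N) (F := E K)).continuous.continuousAt.comp_continuousWithinAt hB
  have hc : ContinuousWithinAt (fun y => (ContinuousLinearMap.adjoint (B y) ∘L B y : End N)) S x :=
    ha.clm_comp hB
  obtain ⟨U, hU⟩ := unit_of_inj (B x) hi
  have hr : ContinuousWithinAt
      (fun y => (Ring.inverse ((ContinuousLinearMap.adjoint (B y) ∘L B y : End N)) : End N)) S x := by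
    have h1 : ContinuousAt (Ring.inverse : End N → End N)
        (ContinuousLinearMap.adjoint (B x) ∘L B x : End N) := by
      rw [← hU]
      exact NormedRing.inverse_continuousAt U
    exact ContinuousAt.comp_continuousWithinAt (f := fun y =>
      (ContinuousLinearMap.adjoint (B y) ∘L B y : End N)) h1 hc
  exact hB.clm_comp (hr.clm_comp ha)

theorem pi_cont {N K : ℕ} {M : Set (E K)} {m : Measure (E K)} (h : ClosedManifold N K M m) :
    ContinuousOn (Pi M) M := by
  intro x hx
  obtain ⟨c, hxW, -⟩ := h.chart x hx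
  have ht1 := Pool.Agent.Helper57.RZ.t1
  have hzV : c.φ x ∈ c.V := c.mapsφ x ⟨hx, hxW⟩
  have hinj : ∀ z ∈ c.V, Function.Injective (fderiv ℝ c.ψ z) := by
    intro z hz v w hvw
    have h1 := (ht1 N K M c z hz).1
    have h2 := congrArg (fun F : E N →L[ℝ] E N => F v) h1
    have h3 := congrArg (fun F : E N →L[ℝ] E N => F w) h1
    have h2' : (fderiv ℝ c.φ (c.ψ z)) ((fderiv ℝ c.ψ z) v) = v := h2
    have h3' : (fderiv ℝ c.φ (c.ψ z)) ((fderiv ℝ c.ψ z) w) = w := h3
    rw [← h2', ← h3', hvw]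
  have heq : ∀ y ∈ M ∩ c.W, Pi M y = prj (fderiv ℝ c.ψ (c.φ y)) := by
    intro y hy
    have hz : c.φ y ∈ c.V := c.mapsφ y hy
    have hr : c.ψ (c.φ y) = y := c.right y hy
    obtain ⟨-, h2, h3⟩ := ht1 N K M c (c.φ y) hz
    rw [hr] at h2 h3
    unfold Pi
    refine prj_eq _ (hinj _ hz) _ ?_ ?_
    · intro v
      have h4 := congrArg (fun F : E N →L[ℝ] E K => F v) h2
      simp only [ContinuousLinearMap.comp_apply] at h4
      rw [← h4]
      exact Pool.Agent.Helper57.RZ.Pi_mem M y _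
    · intro w hw
      have h4 := congrArg (fun F : E K →L[ℝ] E K => F w) h3
      simp only [ContinuousLinearMap.comp_apply] at h4
      have h5 : Pi M y w = w := Pool.Agent.Helper57.RZ.Pi_self hw
      exact ⟨_, h4.trans h5⟩
  have hWn : c.W ∈ 𝓝 x := c.openW.mem_nhds hxW
  have hφ : ContinuousAt c.φ x := (c.smoothφ.continuousOn).continuousAt hWn
  have hψ : ContinuousAt (fderiv ℝ c.ψ) (c.φ x) := by
    have h1 : ContDiffAt ℝ ∞ c.ψ (c.φ x) := c.smoothψ.contDiffAt (c.openV.mem_nhds hzV)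
    exact (h1.fderiv_right (m := 0) (by simp)).continuousAt
  have hc : ContinuousWithinAt (fun y => fderiv ℝ c.ψ (c.φ y)) M x :=
    (ContinuousAt.comp (f := c.φ) hψ hφ).continuousWithinAt
  refine (prj_cont _ M x hc (hinj _ hzV)).congr_of_eventuallyEq ?_ (heq x ⟨hx, hxW⟩)
  filter_upwards [mem_nhdsWithin_of_mem_nhds hWn, self_mem_nhdsWithin] with y hy hyM
  exact heq y ⟨hyM, hy⟩

/-- the derivative of `x ↦ A (u x) x` -/
theorem der_hT {K : ℕ} {s : WithTop ℕ∞} {M : Set (E K)} {A : ℝ → E K → E K} (hs : 1 ≤ s)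
    (hA : Flow s M A) {u : E K → ℝ} (hu : ContDiffOn ℝ 1 u M) {x : E K} (hx : x ∈ M) :
    der M (hT A u) x = der M (A (u x)) x +
      ((fderivWithin ℝ u M x) ∘L (Pi M x)).smulRight (gen A (A (u x) x)) := by
  have ht2 := Pool.Agent.Helper57.RZ.t2
  have hS : (u x, x) ∈ (univ ×ˢ M : Set (ℝ × E K)) := ⟨mem_univ _, hx⟩
  have h0 : HasFDerivWithinAt (fun p : ℝ × E K => A p.1 p.2)
      (fderivWithin ℝ (fun p : ℝ × E K => A p.1 p.2) (univ ×ˢ M) (u x, x)) (univ ×ˢ M) (u x, x) :=
    (((hA.smooth.of_le hs) (u x, x) hS).differentiableWithinAt (by simp)).hasFDerivWithinAt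
  set D := fderivWithin ℝ (fun p : ℝ × E K => A p.1 p.2) (univ ×ˢ M) (u x, x) with hD
  have hud : HasFDerivWithinAt u (fderivWithin ℝ u M x) M x :=
    ((hu x hx).differentiableWithinAt (by simp)).hasFDerivWithinAt
  have h1 : HasFDerivWithinAt (hT A u) (D ∘L ((fderivWithin ℝ u M x).prod
      (ContinuousLinearMap.id ℝ (E K)))) M x := by
    have h2 : HasFDerivWithinAt (fun y : E K => (u y, y)) ((fderivWithin ℝ u M x).prod
      (ContinuousLinearMap.id ℝ (E K))) M x := hud.prodMk (hasFDerivWithinAt_id x M)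
    exact HasFDerivWithinAt.comp (f := fun y : E K => (u y, y)) x h0 h2
      (fun y hy => ⟨mem_univ _, hy⟩)
  have h3 : HasFDerivWithinAt (A (u x)) (D ∘L (ContinuousLinearMap.inr ℝ ℝ (E K))) M x := by
    have h4 : HasFDerivWithinAt (fun y : E K => (u x, y)) (ContinuousLinearMap.inr ℝ ℝ (E K)) M x :=
      (hasFDerivAt_prodMk_right (u x) x).hasFDerivWithinAt
    exact HasFDerivWithinAt.comp (f := fun y : E K => (u x, y)) x h0 h4
      (fun y hy => ⟨mem_univ _, hy⟩)
  have h5 : D (1, 0) = gen A (A (u x) x) := by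
    have h6 : HasDerivAt (fun t : ℝ => (t, x)) ((1 : ℝ), (0 : E K)) (u x) :=
      (hasDerivAt_id (u x)).prodMk (hasDerivAt_const (u x) x)
    have h7 : HasDerivWithinAt (fun t : ℝ => A t x) (D (1, 0)) univ (u x) :=
      HasFDerivWithinAt.comp_hasDerivWithinAt (f := fun t : ℝ => (t, x)) (u x) h0
        h6.hasDerivWithinAt (fun t _ => ⟨mem_univ _, hx⟩)
    rw [hasDerivWithinAt_univ] at h7
    exact h7.unique (Pool.Agent.Helper93.CIR.dt hs hA hx (u x))
  rw [← (ht2 K M (hT A u) id x hx).1 _ h1, ← (ht2 K M (A (u x)) id x hx).1 _ h3]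
  ext1 v
  change D ((fderivWithin ℝ u M x) (Pi M x v), Pi M x v) =
    D ((0 : ℝ), Pi M x v) + ((fderivWithin ℝ u M x) (Pi M x v)) • gen A (A (u x) x)
  rw [← h5, ← map_smul, ← map_add]
  simp

theorem gGC1 : StmtGC1 := by
  intro N K s M m A hs _ hCM hA δ hδ
  have hM := hCM.compact
  have hPi := pi_cont hCM
  have ht2 := Pool.Agent.Helper57.RZ.t2
  have hA1 : ContDiffOn ℝ 1 (fun p : ℝ × E K => A p.1 p.2) (univ ×ˢ M) := hA.smooth.of_le hs
  have hJ : ContinuousOn (fun p : ℝ × E K => der M (A p.1) p.2) (univ ×ˢ M) :=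
    Pool.Agent.Helper17.CIR.gJCD ℝ K M univ A isOpen_univ hPi hA1
  obtain ⟨θ1, hθ1, h1⟩ := Pool.Agent.Helper72.CIR.unif1 hM
    (fun p : ℝ × E K => der M (A p.1) p.2) hJ (δ / 2) (by positivity)
  obtain ⟨θ2, hθ2, h2⟩ := Pool.Agent.Helper72.CIR.unif1 hM
    (fun p : ℝ × E K => A p.1 p.2) hA1.continuousOn δ hδ
  obtain ⟨C, hC⟩ := hM.exists_bound_of_continuousOn (Pool.Agent.Helper93.CIR.cgen hs hA)
  have hC0 : 0 ≤ |C| := abs_nonneg C
  refine ⟨min θ1 (min θ2 (δ / (2 * (|C| + 1)))), by positivity, ?_⟩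
  intro u hu hsm x hx
  obtain ⟨ha, hb⟩ := hsm x hx
  have k1 := ha.trans (min_le_left _ _)
  have k2 := (ha.trans (min_le_right _ _)).trans (min_le_left _ _)
  have k3 := (hb.trans (min_le_right _ _)).trans (min_le_right _ _)
  have hz : der M (A 0) x = Pi M x := by
    have h5 : ∀ y ∈ M, A 0 y = id y := fun y hy => hA.zero y hy
    rw [(ht2 K M (A 0) id x hx).2.2.2.2 h5]
    exact (ht2 K M id id x hx).2.2.2.1
  constructor
  · have h4 := h2 (u x) k2 x hx
    simp only [hA.zero x hx] at h4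
    exact h4
  · have h4 := h1 (u x) k1 x hx
    simp only [hz] at h4
    rw [der_hT hs hA hu hx]
    have h6 : ‖((fderivWithin ℝ u M x) ∘L (Pi M x)).smulRight (gen A (A (u x) x))‖ ≤ δ / 2 := by
      rw [ContinuousLinearMap.norm_smulRight_apply]
      have h7 : ‖gen A (A (u x) x)‖ ≤ |C| + 1 := by
        have := hC _ (hA.maps (u x) hx)
        have := le_abs_self C
        linarith
      calc _ ≤ (δ / (2 * (|C| + 1))) * (|C| + 1) := by
            exact mul_le_mul k3 h7 (norm_nonneg _) (by positivity)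
        _ = δ / 2 := by field_simp
    calc _ = ‖(der M (A (u x)) x - Pi M x) +
          ((fderivWithin ℝ u M x) ∘L (Pi M x)).smulRight (gen A (A (u x) x))‖ := by
          congr 1
          abel
      _ ≤ δ / 2 + δ / 2 := (norm_add_le _ _).trans (add_le_add h4 h6)
      _ = δ := by ring

end Pool.Agent.Helper91.TOF
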